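import Pool.Agent.Lib.MP_aa8fd2_nt.Assemble
import Pool.Agent.Lib.MP_aa8fd2_nt.RepThree
import Pool.Agent.Lib.MP_aa8fd2_nt.FiniteHom
import Pool.Agent.Lib.MP_aa8fd2_nt.Fields

set_option autoImplicit false

/-!
Mazur's dimension conjecture is false. The counterexample has `p = 2`, `n = 3`, `k = F_4`,
`F = ℚ(√5)` and `S` the set of the archimedean places and the places above 2 and 3. The residual
representation has image of order 27 and factors through a totally real extension, so
`δ(ρbar) = 1`, but `R/2R` has Krull dimension at least 2.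
-/

namespace Pool.Agent.Results.MP_aa8fd2_nt.DimensionConjectureFails

open Pool.Agent.Lib.MP_aa8fd2_nt Pool.Agent.Lib.MP_aa8fd2_nt.Mazur

/-- Mazur's dimension conjecture is false. -/
theorem result : ¬ DimensionConjecture := by
  intro hconj
  obtain ⟨F, _, _, φ, hφ, hF⟩ := exists_quadratic_field
  obtain ⟨k, _, _, _, w, hw⟩ := exists_field_four
  obtain ⟨ρbar, hcont, hirr, hδ, ⟨g₁, h₁⟩, ⟨g₂, h₂⟩, hdim⟩ := key φ hφ hF w hw
  have hopen : IsOpen (ρbar.ker : Set (GFS F (placesSix F))) := hcont 1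
  obtain ⟨R, ρu, hR⟩ := exists_universal_three w hw ρbar hopen (finite_hom _ hopen) g₁ g₂ h₁ h₂
  obtain ⟨-, d, hd, hd'⟩ := hconj F 3 2 k (placesSix F) ρbar (by norm_num) (by norm_num)
    (fun v hv => mem_placesSix_of_two (by exact_mod_cast hv)) hcont hirr R ρu hR
  have h2 := hdim R ρu hR
  rw [hδ] at hd'
  have hd1 : d = 1 := by exact_mod_cast hd'
  rw [Nat.cast_ofNat, hd1] at hd
  rw [hd] at h2
  norm_num at h2

end Pool.Agent.Results.MP_aa8fd2_nt.DimensionConjectureFails
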